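import Pool.Agent.Helper12_XQ.Stmt
import Pool.Agent.Helper12_AEU.GermA

/-! Squad XQ, module U_REP: the representation of the germ of type A (change of variables). -/

set_option autoImplicit false

namespace Pool.Agent.XQ.U.H13

open MeasureTheory Filter Topology Real Set Pool.Agent.AEU Pool.Agent.AEU.H12 Pool.Agent.XQ
open Pool.Agent.XQ.U

/-- evenness in both variables -/
lemma quad4 (G : ℝ × ℝ → ℝ) (hG : Integrable G) (he : ∀ p, G p = G (|p.1|, |p.2|)) :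
    ∫ p, G p = 4 * ∫ p in Qd, G p := by
  have h1 : ∫ p, G p = ∫ v, ∫ w, G (v, w) := by
    rw [Measure.volume_eq_prod] at hG ⊢
    exact integral_prod _ hG
  have h2 : ∫ p in Qd, G p = ∫ v in Ioi (0 : ℝ), ∫ w in Ioi (0 : ℝ), G (v, w) := by
    unfold Qd
    rw [Measure.volume_eq_prod]
    exact setIntegral_prod _ (by rw [← Measure.volume_eq_prod]; exact hG.integrableOn)
  rw [h1, h2]
  have h3 : ∀ v : ℝ, ∫ w, G (v, w) = 2 * ∫ w in Ioi (0 : ℝ), G (|v|, w) := by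
    intro v
    rw [← integral_comp_abs (f := fun w => G (|v|, w))]
    refine integral_congr_ae (Eventually.of_forall fun w => ?_)
    exact he (v, w)
  simp only [h3]
  rw [integral_const_mul, integral_comp_abs (f := fun v => ∫ w in Ioi (0 : ℝ), G (v, w))]
  ring

/-- the integrand in the variables `P`, `Q` -/
noncomputable def HH (b b' a : ℝ) (x : ℝ × ℝ) : ℝ :=
  rexp (-(2 * a * (cosh x.1 * cosh x.2))) *
    ((KKf b (2 * x.2) - KKf b (2 * x.1)) * (KKf b' (2 * x.2) - KKf b' (2 * x.1)))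

noncomputable def FF (b b' a : ℝ) (p : ℝ × ℝ) : ℝ :=
  rexp (-(a * (cosh p.1 + cosh p.2))) * (PK b p.1 p.2 * PK b' p.1 p.2)

lemma FF_lin (b b' a P Q : ℝ) : FF b b' a (P + Q, P - Q) = HH b b' a (P, Q) := by
  unfold FF HH PK
  simp only
  have e : cosh (P + Q) + cosh (P - Q) = 2 * (cosh P * cosh Q) := by
    rw [Real.cosh_add, Real.cosh_sub]; ring
  rw [e, show P + Q - (P - Q) = 2 * Q by ring, show P + Q + (P - Q) = 2 * P by ring]
  ring_nf

lemma KKf_abs (b u : ℝ) : KKf b (2 * |u|) = KKf b (2 * u) := by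
  rcases abs_choice u with h | h <;> rw [h]
  rw [show 2 * -u = -(2 * u) by ring, KKf_even]

lemma HH_even (b b' a : ℝ) (x : ℝ × ℝ) : HH b b' a x = HH b b' a (|x.1|, |x.2|) := by
  unfold HH
  simp only [KKf_abs, cosh_abs]

lemma PK_neg_right (b v w : ℝ) : PK b v (-w) = -PK b v w := by
  unfold PK
  rw [show v - -w = v + w by ring, show v + -w = v - w by ring]; ring

lemma PK_neg_left (b v w : ℝ) : PK b (-v) w = -PK b v w := by
  unfold PK
  rw [show -v - w = -(v + w) by ring, show -v + w = -(v - w) by ring, KKf_even, KKf_even]; ring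

lemma FF_even (b b' a : ℝ) (p : ℝ × ℝ) : FF b b' a p = FF b b' a (|p.1|, |p.2|) := by
  unfold FF
  simp only [cosh_abs]
  rcases abs_choice p.1 with h | h <;> rcases abs_choice p.2 with h' | h' <;> rw [h, h'] <;>
    simp only [PK_neg_left, PK_neg_right] <;> ring

lemma HH_int {b b' a : ℝ} (ha : 0 < a) (hb : cos (b * π) ≠ 1) (hb' : cos (b' * π) ≠ 1) :
    Integrable (HH b b' a) := by
  obtain ⟨M, hM⟩ := KKf_bdd hb
  obtain ⟨M', hM'⟩ := KKf_bdd hb'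
  have hg : Integrable fun p : ℝ × ℝ => rexp (-a * p.1 ^ 2) * rexp (-a * p.2 ^ 2) *
      ((M + M) * (M' + M')) :=
    ((integrable_exp_neg_mul_sq ha).mul_prod (integrable_exp_neg_mul_sq ha)).mul_const _
  refine hg.mono' ?_ ?_
  · have m1 := measurable_KKf b
    have m2 := measurable_KKf b'
    unfold HH
    exact (Measurable.mul (by fun_prop) (by fun_prop)).aestronglyMeasurable
  · refine Eventually.of_forall fun p => ?_
    unfold HH
    rw [norm_mul, norm_mul, Real.norm_eq_abs, Real.norm_eq_abs, Real.norm_eq_abs,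
      abs_of_pos (exp_pos _), ← Real.exp_add]
    have h1 : |KKf b (2 * p.2) - KKf b (2 * p.1)| ≤ M + M :=
      (abs_sub _ _).trans (add_le_add (hM _) (hM _))
    have h2 : |KKf b' (2 * p.2) - KKf b' (2 * p.1)| ≤ M' + M' :=
      (abs_sub _ _).trans (add_le_add (hM' _) (hM' _))
    have h3 : -(2 * a * (cosh p.1 * cosh p.2)) ≤ -a * p.1 ^ 2 + -a * p.2 ^ 2 := by
      have e : 2 * (cosh p.1 * cosh p.2) = cosh (p.1 + p.2) + cosh (p.1 - p.2) := by
        rw [Real.cosh_add, Real.cosh_sub]; ring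
      have g1 := half_sq_le (p.1 + p.2)
      have g2 := half_sq_le (p.1 - p.2)
      have g3 : p.1 ^ 2 + p.2 ^ 2 ≤ 2 * (cosh p.1 * cosh p.2) := by rw [e]; linarith only [g1, g2]
      nlinarith only [ha, e, g1, g2]
    have h4 : 0 ≤ M + M := (abs_nonneg _).trans h1
    gcongr

/-- the linear map -/
noncomputable def LL : ℝ × ℝ →L[ℝ] ℝ × ℝ :=
  LinearMap.toContinuousLinearMap
    (Matrix.toLin (Module.Basis.finTwoProd ℝ) (Module.Basis.finTwoProd ℝ) !![1, 1; 1, -1])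

lemma LL_apply (x : ℝ × ℝ) : LL x = (x.1 + x.2, x.1 - x.2) := by
  unfold LL
  rw [Matrix.toLin_finTwoProd_toContinuousLinearMap]
  simp [sub_eq_add_neg]

lemma LL_det : LL.det = -2 := by
  unfold LL
  simp only [LinearMap.det_toContinuousLinearMap, LinearMap.det_toLin, Matrix.det_fin_two_of]
  norm_num

lemma lin_change (b b' a : ℝ) : ∫ p, FF b b' a p = 2 * ∫ x, HH b b' a x := by
  have h := integral_image_eq_integral_abs_det_fderiv_smul (volume : Measure (ℝ × ℝ))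
    (s := univ) (f := fun x => LL x) (f' := fun _ => LL) MeasurableSet.univ
    (fun x _ => LL.hasFDerivAt.hasFDerivWithinAt)
    (by
      intro x _ y _ hxy
      simp only [LL_apply, Prod.mk.injEq] at hxy
      ext
      · linarith [hxy.1, hxy.2]
      · linarith [hxy.1, hxy.2]) (FF b b' a)
  have himg : (fun x => LL x) '' univ = (univ : Set (ℝ × ℝ)) := by
    rw [image_univ]
    refine eq_univ_of_forall fun y => ⟨((y.1 + y.2) / 2, (y.1 - y.2) / 2), ?_⟩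
    simp only [LL_apply]
    ext <;> simp only <;> ring
  rw [himg, setIntegral_univ, setIntegral_univ] at h
  rw [h, ← integral_const_mul]
  refine integral_congr_ae (Eventually.of_forall fun x => ?_)
  simp only [LL_det, smul_eq_mul, LL_apply]
  rw [show (x.1 + x.2, x.1 - x.2) = ((x.1, x.2).1 + (x.1, x.2).2, (x.1, x.2).1 - (x.1, x.2).2) from rfl]
  simp only [FF_lin]
  norm_num

lemma TA_eq_HH {b b' a : ℝ} (ha : 0 < a) (hb : cos (b * π) ≠ 1) (hb' : cos (b' * π) ≠ 1) :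
    TA b b' a = 2 * ∫ x in Qd, HH b b' a x := by
  have h1 := quad4 (FF b b' a) (int_TA ha hb hb') (FF_even b b' a)
  have h2 := quad4 (HH b b' a) (HH_int ha hb hb') (HH_even b b' a)
  have h3 := lin_change b b' a
  have h4 : TA b b' a = ∫ p in Qd, FF b b' a p := rfl
  rw [h4]; linarith

/-! ### the nonlinear change of variables -/

/-- the region of the new variables -/
def Om : Set (ℝ × ℝ) := Ioi (1 : ℝ) ×ˢ Ioo 0 (π / 2)

/-- the change of variables -/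
noncomputable def Ph (x : ℝ × ℝ) : ℝ × ℝ :=
  (cosh x.1 * cosh x.2, arctan ((sinh x.2 / cosh x.2) * (sinh x.1)⁻¹))

noncomputable def uu (x : ℝ × ℝ) : ℝ := (sinh x.2 / cosh x.2) * (sinh x.1)⁻¹

/-- the derivative -/
noncomputable def PhD (x : ℝ × ℝ) : ℝ × ℝ →L[ℝ] ℝ × ℝ :=
  LinearMap.toContinuousLinearMap
    (Matrix.toLin (Module.Basis.finTwoProd ℝ) (Module.Basis.finTwoProd ℝ)
      !![sinh x.1 * cosh x.2, cosh x.1 * sinh x.2;
        (1 / (1 + uu x ^ 2)) * ((sinh x.2 / cosh x.2) * (-cosh x.1 / sinh x.1 ^ 2)),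
        (1 / (1 + uu x ^ 2)) * ((cosh x.2 * cosh x.2 - sinh x.2 * sinh x.2) / cosh x.2 ^ 2
          * (sinh x.1)⁻¹)])

lemma hasFDerivAt_Ph {x : ℝ × ℝ} (hx : x ∈ Qd) : HasFDerivAt Ph (PhD x) x := by
  have hP : 0 < sinh x.1 := Real.sinh_pos_iff.mpr hx.1
  have hQ : 0 < cosh x.2 := cosh_pos _
  have d1 : HasFDerivAt (fun y : ℝ × ℝ => cosh y.1 * cosh y.2)
      (cosh x.1 • (sinh x.2 • ContinuousLinearMap.snd ℝ ℝ ℝ)
        + cosh x.2 • (sinh x.1 • ContinuousLinearMap.fst ℝ ℝ ℝ)) x :=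
    (hasFDerivAt_fst.cosh).mul (hasFDerivAt_snd.cosh)
  have e1 : HasDerivAt (fun Q : ℝ => sinh Q / cosh Q)
      ((cosh x.2 * cosh x.2 - sinh x.2 * sinh x.2) / cosh x.2 ^ 2) x.2 :=
    (Real.hasDerivAt_sinh x.2).div (Real.hasDerivAt_cosh x.2) hQ.ne'
  have e2 : HasDerivAt (fun P : ℝ => (sinh P)⁻¹) (-cosh x.1 / sinh x.1 ^ 2) x.1 :=
    (Real.hasDerivAt_sinh x.1).inv hP.ne'
  have d2 : HasFDerivAt uu
      ((sinh x.2 / cosh x.2) • ((-cosh x.1 / sinh x.1 ^ 2) • ContinuousLinearMap.fst ℝ ℝ ℝ)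
        + (sinh x.1)⁻¹ • (((cosh x.2 * cosh x.2 - sinh x.2 * sinh x.2) / cosh x.2 ^ 2) •
          ContinuousLinearMap.snd ℝ ℝ ℝ)) x :=
    (e1.comp_hasFDerivAt x hasFDerivAt_snd).mul (e2.comp_hasFDerivAt x hasFDerivAt_fst)
  have d3 := d1.prodMk d2.arctan
  have e : ((cosh x.1 • (sinh x.2 • ContinuousLinearMap.snd ℝ ℝ ℝ)
        + cosh x.2 • (sinh x.1 • ContinuousLinearMap.fst ℝ ℝ ℝ)).prod
      ((1 / (1 + uu x ^ 2)) • ((sinh x.2 / cosh x.2) • ((-cosh x.1 / sinh x.1 ^ 2) •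
          ContinuousLinearMap.fst ℝ ℝ ℝ)
        + (sinh x.1)⁻¹ • (((cosh x.2 * cosh x.2 - sinh x.2 * sinh x.2) / cosh x.2 ^ 2) •
          ContinuousLinearMap.snd ℝ ℝ ℝ)))) = PhD x := by
    unfold PhD
    rw [Matrix.toLin_finTwoProd_toContinuousLinearMap]
    ext <;> simp <;> first | ring1 | (left; ring1)
  rw [e] at d3
  exact d3

lemma cosh_sq' (x : ℝ) : cosh x ^ 2 = 1 + sinh x ^ 2 := by
  rw [Real.cosh_sq]; ring

lemma det_PhD {x : ℝ × ℝ} (hx : x ∈ Qd) : (PhD x).det = cosh x.2 := by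
  have hP : 0 < sinh x.1 := Real.sinh_pos_iff.mpr hx.1
  have hQ : 0 < cosh x.2 := cosh_pos _
  have hu : 0 < 1 + uu x ^ 2 := by positivity
  unfold PhD
  simp only [LinearMap.det_toContinuousLinearMap, LinearMap.det_toLin, Matrix.det_fin_two_of]
  have e : cosh x.2 * cosh x.2 - sinh x.2 * sinh x.2 = 1 := by
    have := cosh_sq' x.2; linarith only [this]
  rw [e]
  have hu2 : 1 + uu x ^ 2 = (sinh x.1 ^ 2 * cosh x.2 ^ 2 + sinh x.2 ^ 2) /
      (sinh x.1 ^ 2 * cosh x.2 ^ 2) := by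
    unfold uu; field_simp
  have hD : 0 < sinh x.1 ^ 2 * cosh x.2 ^ 2 + sinh x.2 ^ 2 := by positivity
  rw [hu2]
  field_simp
  rw [cosh_sq' x.1, cosh_sq' x.2]
  ring

/-- the two basic identities -/
lemma Ph_sin {x : ℝ × ℝ} (hx : x ∈ Qd) :
    √((Ph x).1 ^ 2 - 1) * sin (Ph x).2 = sinh x.2 ∧
    √((Ph x).1 ^ 2 - 1) * cos (Ph x).2 = sinh x.1 * cosh x.2 := by
  have hP : 0 < sinh x.1 := Real.sinh_pos_iff.mpr hx.1
  have hQs : 0 < sinh x.2 := Real.sinh_pos_iff.mpr hx.2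
  have hQ : 0 < cosh x.2 := cosh_pos _
  have hu2 : 1 + uu x ^ 2 = (sinh x.1 ^ 2 * cosh x.2 ^ 2 + sinh x.2 ^ 2) /
      (sinh x.1 ^ 2 * cosh x.2 ^ 2) := by
    unfold uu; field_simp
  have hD : 0 < sinh x.1 ^ 2 * cosh x.2 ^ 2 + sinh x.2 ^ 2 := by positivity
  have hs : (Ph x).1 ^ 2 - 1 = sinh x.1 ^ 2 * cosh x.2 ^ 2 + sinh x.2 ^ 2 := by
    unfold Ph
    simp only
    rw [mul_pow, cosh_sq' x.1]
    have := cosh_sq' x.2
    linarith only [this]
  have hsq : √(1 + uu x ^ 2) = √((Ph x).1 ^ 2 - 1) / (sinh x.1 * cosh x.2) := by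
    rw [hu2, hs, Real.sqrt_div hD.le, ← mul_pow, Real.sqrt_sq (by positivity)]
  have hR : 0 < √((Ph x).1 ^ 2 - 1) := by rw [hs]; exact Real.sqrt_pos.mpr hD
  have e2 : (Ph x).2 = arctan (uu x) := rfl
  rw [e2, Real.sin_arctan, Real.cos_arctan, hsq]
  constructor
  · unfold uu
    field_simp
  · field_simp

lemma Ph_mem {x : ℝ × ℝ} (hx : x ∈ Qd) : Ph x ∈ Om := by
  have hP : 0 < sinh x.1 := Real.sinh_pos_iff.mpr hx.1
  have hQs : 0 < sinh x.2 := Real.sinh_pos_iff.mpr hx.2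
  have hQ : 0 < cosh x.2 := cosh_pos _
  refine ⟨?_, ?_, ?_⟩
  · show 1 < cosh x.1 * cosh x.2
    have h1 : 1 < cosh x.1 := by rw [Real.one_lt_cosh]; exact ne_of_gt hx.1
    have h2 : 1 ≤ cosh x.2 := one_le_cosh _
    nlinarith only [h2, h1]
  · show 0 < arctan _
    rw [Real.arctan_pos]
    positivity
  · exact Real.arctan_lt_pi_div_two _

/-- the inverse map -/
noncomputable def Psi (y : ℝ × ℝ) : ℝ × ℝ :=
  (arsinh (√(y.1 ^ 2 - 1) * cos y.2 / √(1 + (√(y.1 ^ 2 - 1) * sin y.2) ^ 2)),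
    arsinh (√(y.1 ^ 2 - 1) * sin y.2))

lemma sqrt_one_sinh (q : ℝ) : √(1 + sinh q ^ 2) = cosh q := by
  rw [← cosh_sq', Real.sqrt_sq (cosh_pos q).le]

lemma Psi_Ph {x : ℝ × ℝ} (hx : x ∈ Qd) : Psi (Ph x) = x := by
  have hQ : 0 < cosh x.2 := cosh_pos _
  obtain ⟨h1, h2⟩ := Ph_sin hx
  unfold Psi
  rw [h1, h2, sqrt_one_sinh]
  ext
  · simp only
    rw [mul_div_assoc, div_self hQ.ne', mul_one, Real.arsinh_sinh]
  · simp only
    rw [Real.arsinh_sinh]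

lemma Ph_Psi {y : ℝ × ℝ} (hy : y ∈ Om) : Psi y ∈ Qd ∧ Ph (Psi y) = y := by
  have h1 : 1 < y.1 := hy.1
  have h2 : 0 < y.2 := hy.2.1
  have h3 : y.2 < π / 2 := hy.2.2
  have hpi := pi_pos
  have hs : 0 < sin y.2 := sin_pos_of_pos_of_lt_pi h2 (by linarith)
  have hc : 0 < cos y.2 := cos_pos_of_mem_Ioo ⟨by linarith, h3⟩
  have hr : 0 < √(y.1 ^ 2 - 1) := Real.sqrt_pos.mpr (by nlinarith only [h1])
  have hr2 : √(y.1 ^ 2 - 1) ^ 2 = y.1 ^ 2 - 1 := Real.sq_sqrt (by nlinarith only [h1])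
  set A := √(y.1 ^ 2 - 1) with hA
  have hQ : sinh (Psi y).2 = A * sin y.2 := by unfold Psi; rw [Real.sinh_arsinh]
  have hC : cosh (Psi y).2 = √(1 + (A * sin y.2) ^ 2) := by
    rw [← sqrt_one_sinh, hQ]
  have hCp : 0 < cosh (Psi y).2 := cosh_pos _
  have hP : sinh (Psi y).1 = A * cos y.2 / cosh (Psi y).2 := by
    rw [hC]; unfold Psi; rw [Real.sinh_arsinh]
  have hmem : Psi y ∈ Qd := by
    constructor
    · show 0 < (Psi y).1
      rw [← Real.sinh_pos_iff, hP]; positivity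
    · show 0 < (Psi y).2
      rw [← Real.sinh_pos_iff, hQ]; positivity
  refine ⟨hmem, ?_⟩
  have hC2 : cosh (Psi y).2 ^ 2 = 1 + (A * sin y.2) ^ 2 := by rw [cosh_sq', hQ]
  have key : (cosh (Psi y).1 * cosh (Psi y).2) ^ 2 = y.1 ^ 2 := by
    rw [mul_pow, cosh_sq' (Psi y).1, hP, div_pow, add_mul, one_mul,
      div_mul_cancel₀ _ (by positivity), hC2]
    have := sin_sq_add_cos_sq y.2
    have e : 1 + (A * sin y.2) ^ 2 + (A * cos y.2) ^ 2 = 1 + A ^ 2 * (sin y.2 ^ 2 + cos y.2 ^ 2) := by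
      ring
    rw [e, this, hr2]; ring
  ext
  · show cosh (Psi y).1 * cosh (Psi y).2 = y.1
    have p1 := cosh_pos (Psi y).1
    exact (pow_left_inj₀ (by positivity) (by linarith) two_ne_zero).mp key
  · show arctan ((sinh (Psi y).2 / cosh (Psi y).2) * (sinh (Psi y).1)⁻¹) = y.2
    rw [hQ, hP]
    have e : A * sin y.2 / cosh (Psi y).2 * (A * cos y.2 / cosh (Psi y).2)⁻¹ = tan y.2 := by
      rw [tan_eq_sin_div_cos]
      field_simp
    rw [e, Real.arctan_tan (by linarith) h3]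

lemma image_Ph : Ph '' Qd = Om := by
  ext y
  constructor
  · rintro ⟨x, hx, rfl⟩; exact Ph_mem hx
  · intro hy
    obtain ⟨h1, h2⟩ := Ph_Psi hy
    exact ⟨Psi y, h1, h2⟩

lemma inj_Ph : InjOn Ph Qd := by
  intro x hx y hy h
  rw [← Psi_Ph hx, ← Psi_Ph hy, h]

/-- the integrand in the new variables -/
noncomputable def GG (b b' a : ℝ) (y : ℝ × ℝ) : ℝ :=
  rexp (-(2 * a * y.1)) * (dF b (1 - y.1 ^ 2) y.2 * dF b' (1 - y.1 ^ 2) y.2 /
    √(1 - (1 - y.1 ^ 2) * sin y.2 ^ 2))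

lemma dF_Ph (b : ℝ) {x : ℝ × ℝ} (hx : x ∈ Qd) :
    dF b (1 - (Ph x).1 ^ 2) (Ph x).2 = KKf b (2 * x.2) - KKf b (2 * x.1) ∧
    √(1 - (1 - (Ph x).1 ^ 2) * sin (Ph x).2 ^ 2) = cosh x.2 := by
  have hP : 0 < sinh x.1 := Real.sinh_pos_iff.mpr hx.1
  have hQs : 0 < sinh x.2 := Real.sinh_pos_iff.mpr hx.2
  have hQ : 0 < cosh x.2 := cosh_pos _
  obtain ⟨h1, h2⟩ := Ph_sin hx
  have hm := Ph_mem hx
  have hm1 : 1 < (Ph x).1 := hm.1
  set s := (Ph x).1 with hs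
  set t := (Ph x).2 with ht
  have hr2 : √(s ^ 2 - 1) ^ 2 = s ^ 2 - 1 := Real.sq_sqrt (by nlinarith only [hm1])
  have a1 : (1 - s ^ 2) * sin t ^ 2 = -(sinh x.2 ^ 2) := by
    rw [← h1, mul_pow, hr2]; ring
  have a2 : (1 - s ^ 2) * cos t ^ 2 = -(sinh x.1 ^ 2 * cosh x.2 ^ 2) := by
    rw [← mul_pow, ← h2, mul_pow, hr2]; ring
  have a3 : 1 - (1 - s ^ 2) * sin t ^ 2 = cosh x.2 ^ 2 := by rw [a1, cosh_sq']; ring
  have a4 : YY (1 - s ^ 2) t = -(sinh x.1 ^ 2) := by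
    unfold YY
    rw [a3, a2]
    field_simp
  have fr : ∀ q : ℝ, 0 < sinh q → FR b (-(sinh q ^ 2)) = KKf b (2 * q) := by
    intro q hq
    unfold FR
    rw [if_neg (by have := pow_pos hq 2; linarith), neg_neg, Real.sqrt_sq hq.le,
      Real.arsinh_sinh]
  constructor
  · unfold dF
    rw [a1, a4, fr _ hQs, fr _ hP]
  · rw [a3, Real.sqrt_sq hQ.le]

lemma GG_Ph (b b' a : ℝ) {x : ℝ × ℝ} (hx : x ∈ Qd) :
    |(PhD x).det| • GG b b' a (Ph x) = HH b b' a x := by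
  have hQ : 0 < cosh x.2 := cosh_pos _
  obtain ⟨h1, h2⟩ := dF_Ph b hx
  obtain ⟨h1', -⟩ := dF_Ph b' hx
  unfold GG HH
  rw [h1, h1', h2, det_PhD hx, abs_of_pos hQ, smul_eq_mul]
  have e : (Ph x).1 = cosh x.1 * cosh x.2 := rfl
  rw [e]
  field_simp

lemma int_GG {b b' a : ℝ} (ha : 0 < a) (hb : cos (b * π) ≠ 1) (hb' : cos (b' * π) ≠ 1) :
    IntegrableOn (GG b b' a) Om ∧ ∫ y in Om, GG b b' a y = ∫ x in Qd, HH b b' a x := by
  have hd : ∀ x ∈ Qd, HasFDerivWithinAt Ph (PhD x) Qd x := fun x hx =>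
    (hasFDerivAt_Ph hx).hasFDerivWithinAt
  constructor
  · rw [← image_Ph, integrableOn_image_iff_integrableOn_abs_det_fderiv_smul volume Qd_meas hd inj_Ph]
    refine IntegrableOn.congr_fun (HH_int ha hb hb').integrableOn ?_ Qd_meas
    intro x hx
    exact (GG_Ph b b' a hx).symm
  · rw [← image_Ph, integral_image_eq_integral_abs_det_fderiv_smul volume Qd_meas hd inj_Ph]
    exact setIntegral_congr_fun Qd_meas (fun x hx => GG_Ph b b' a hx)

lemma cos_ne {b : ℝ} (hb : b ∈ Ioo (1 : ℝ) 2) : cos (b * π) ≠ 1 := by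
  intro h
  have hp := pi_pos
  have h2 : cos (b * π - 2 * π) = 1 := by rw [cos_sub_two_pi, h]
  rw [Real.cos_eq_one_iff_of_lt_of_lt] at h2
  · nlinarith [hb.2]
  · nlinarith [hb.1]
  · nlinarith [hb.2]

theorem rep : RepStmt := by
  intro b b' a hb hb' ha
  obtain ⟨h1, h2⟩ := int_GG ha (cos_ne hb) (cos_ne hb')
  rw [TA_eq_HH ha (cos_ne hb) (cos_ne hb'), ← h2]
  have h3 : ∫ y in Om, GG b b' a y = ∫ s in Ioi (1 : ℝ), ∫ t in Ioo 0 (π / 2), GG b b' a (s, t) := by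
    unfold Om at h1 ⊢
    rw [Measure.volume_eq_prod] at h1 ⊢
    exact setIntegral_prod _ h1
  rw [h3, ← integral_const_mul]
  refine setIntegral_congr_fun measurableSet_Ioi (fun s _ => ?_)
  unfold DR GG
  simp only
  rw [integral_const_mul]
  ring

end Pool.Agent.XQ.U.H13
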